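import Pool.Agent.V8H46.FT.Spa

/-!
The non-intersection exponents of two self-avoiding walks on the honeycomb lattice and on the
`(3.12²)` lattice of triangles and dodecagons: if one of them exists, both exist and are equal, and
it is enough that one of them exists along a set of lengths with gaps `o(√(n log n))`.
-/

set_option autoImplicit false

namespace Pool.Agent.Results.MP_8c6f77_pr.FisherExponents

open Pool.Agent.V8H46.FT Filter Topology

/-- the three neighbours of the site `p` of the honeycomb lattice, drawn as a brick wall -/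
def nb (p : ℤ × ℤ) (i : Fin 3) : ℤ × ℤ :=
  if (p.1 + p.2) % 2 = 0 then ![(p.1 + 1, p.2), (p.1, p.2 + 1), (p.1 - 1, p.2)] i
  else ![(p.1 - 1, p.2), (p.1, p.2 - 1), (p.1 + 1, p.2)] i

/-- adjacency in the honeycomb lattice -/
def AdjH (p q : ℤ × ℤ) : Prop := ∃ i : Fin 3, q = nb p i

/-- adjacency in the `(3.12²)` lattice, the honeycomb lattice with every site replaced by a
triangle: `(p, i)` is the corner of the triangle at `p` which points to the neighbour `nb p i` of
`p`. The three corners of a triangle are adjacent, and `(p, i)` is adjacent to `(nb p i, i)`; note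
that `nb (nb p i) i = p`. -/
def AdjT (u v : (ℤ × ℤ) × Fin 3) : Prop :=
  (u.1 = v.1 ∧ u.2 ≠ v.2) ∨ (u.2 = v.2 ∧ v.1 = nb u.1 u.2)

/-- the `n`-step self-avoiding walks from `o` in the graph with adjacency `A` -/
def Om {V : Type} (A : V → V → Prop) (o : V) (n : ℕ) : Set (Fin (n + 1) → V) :=
  {f | f 0 = o ∧ Function.Injective f ∧ ∀ i : Fin n, A (f i.castSucc) (f i.succ)}

/-- the number of `n`-step self-avoiding walks from `o` -/
noncomputable def cnt {V : Type} (A : V → V → Prop) (o : V) (n : ℕ) : ℕ := (Om A o n).ncard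

/-- the probability that two independent uniform `n`-step self-avoiding walks `w`, `w'` from `o`
satisfy `w{1,…,n} ∩ w'{0,…,n} = ∅` -/
noncomputable def P {V : Type} (A : V → V → Prop) (o : V) (n : ℕ) : ℝ :=
  ({x : (Fin (n + 1) → V) × (Fin (n + 1) → V) |
    x.1 ∈ Om A o n ∧ x.2 ∈ Om A o n ∧ ∀ i j : Fin (n + 1), i ≠ 0 → x.1 i ≠ x.2 j}.ncard : ℝ) /
    (cnt A o n : ℝ) ^ 2

/-- the connective constant -/
noncomputable def conn {V : Type} (A : V → V → Prop) (o : V) : ℝ :=
  ⨅ n : {n : ℕ // 1 ≤ n}, ((cnt A o n.1 : ℝ) ^ ((1 : ℝ) / (n.1 : ℝ)))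

theorem OmT (n : ℕ) : Om AdjT ((0, 0), 0) n = Sf nF oF n := by
  ext f
  unfold Om Sf
  simp only [Set.mem_ofPred_eq]
  refine and_congr Iff.rfl (and_congr Iff.rfl (forall_congr' fun i => ?_))
  exact adjF_iff _ _

theorem OmH (n : ℕ) : Om AdjH (0, 0) n = Sf nH 0 n := rfl

theorem cntT (n : ℕ) : cnt AdjT ((0, 0), 0) n = fc n := by
  unfold cnt fc
  rw [OmT, ncard_Sf nF_inj]

theorem cntH (n : ℕ) : cnt AdjH (0, 0) n = hc n := by
  unfold cnt hc
  rw [OmH, ncard_Sf nH_inj]

theorem PT (n : ℕ) : P AdjT ((0, 0), 0) n = Fn (2 * n) / Fn n ^ 2 := by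
  rw [← ratio_eq]
  unfold P
  rw [cntT, ← pairsF n, OmT]
  rfl

theorem PH (n : ℕ) : P AdjH (0, 0) n = An (2 * n) / An n ^ 2 := by
  rw [← ratioH_eq]
  unfold P
  rw [cntH, ← pairsH n, OmH]
  rfl

/-- the gaps of the set `S` of lengths are `o(√(n log n))` -/
def Gaps (S : Set ℕ) : Prop :=
  ∀ δ : ℝ, 0 < δ → ∀ᶠ n : ℕ in atTop, ∃ m ∈ S, n ≤ m ∧ (m : ℝ) ≤ n + δ * √(n * Real.log n)

theorem gaps_univ : Gaps Set.univ := fun δ hδ => Eventually.of_forall fun n =>
  ⟨n, Set.mem_univ n, le_rfl, le_add_of_nonneg_right (by positivity)⟩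

/-- **Theorem.** Let `P_n` be the probability that two independent `n`-step self-avoiding walks from
the origin meet only there (`w{1,…,n} ∩ w'{0,…,n} = ∅`), on the `(3.12²)` lattice and on the
honeycomb lattice, and let `b_n`, `a_n` be the numbers of walks and `ν`, `μ` the connective
constants of these two lattices. For every real `α` the following are equivalent:
`P_n = n^(-α + o(1))` on the `(3.12²)` lattice; `P_n = n^(-α + o(1))` on the honeycomb lattice;
`b_n = ν^n n^(α + o(1))`; `a_n = μ^n n^(α + o(1))`; `P_n = n^(-α + o(1))` on the `(3.12²)` lattice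
along some set of lengths with gaps `o(√(n log n))`; the same on the honeycomb lattice.
(`α = 11/32` is the case of the question.) -/
theorem result (α : ℝ) : [
    Tendsto (fun n : ℕ => Real.log (P AdjT ((0, 0), 0) n) / Real.log n) atTop (𝓝 (-α)),
    Tendsto (fun n : ℕ => Real.log (P AdjH (0, 0) n) / Real.log n) atTop (𝓝 (-α)),
    Tendsto (fun n : ℕ => Real.log ((cnt AdjT ((0, 0), 0) n : ℝ) / conn AdjT ((0, 0), 0) ^ n) /
      Real.log n) atTop (𝓝 α),
    Tendsto (fun n : ℕ => Real.log ((cnt AdjH (0, 0) n : ℝ) / conn AdjH (0, 0) ^ n) /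
      Real.log n) atTop (𝓝 α),
    ∃ S : Set ℕ, Gaps S ∧ Tendsto (fun n : ℕ => Real.log (P AdjT ((0, 0), 0) n) / Real.log n)
      (atTop ⊓ 𝓟 S) (𝓝 (-α)),
    ∃ S : Set ℕ, Gaps S ∧ Tendsto (fun n : ℕ => Real.log (P AdjH (0, 0) n) / Real.log n)
      (atTop ⊓ 𝓟 S) (𝓝 (-α))].TFAE := by
  have hν : conn AdjT ((0, 0), 0) = nu := by
    unfold conn
    simp only [cntT]
    exact nu_inf
  have hμ : conn AdjH (0, 0) = mu := by
    unfold conn mu
    simp only [cntH]
  simp only [PT, PH, hν, hμ, cntT, cntH]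
  rw [← ex_iff, ← ex_iff, ← ex_iff (fun n => (fc n : ℝ) / nu ^ n),
    ← ex_iff (fun n => (hc n : ℝ) / mu ^ n)]
  tfae_have 1 ↔ 3 := ex_ratio α
  tfae_have 2 ↔ 4 := ex_ratioH α
  tfae_have 3 ↔ 4 := ex_iff_ex α
  tfae_have 1 → 5 := fun h => ⟨Set.univ, gaps_univ, by
    rw [principal_univ, inf_top_eq]; exact (ex_iff _ _).1 h⟩
  tfae_have 2 → 6 := fun h => ⟨Set.univ, gaps_univ, by
    rw [principal_univ, inf_top_eq]; exact (ex_iff _ _).1 h⟩
  tfae_have 5 → 3 := by
    rintro ⟨S, hS, h⟩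
    exact sparse_expo hS h
  tfae_have 6 → 4 := by
    rintro ⟨S, hS, h⟩
    refine (ex_iff _ _).2 (Pool.Agent.R956.K11.expo wkH hS ?_)
    simpa only [ratioH_eq] using h
  tfae_finish

end Pool.Agent.Results.MP_8c6f77_pr.FisherExponents
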