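import Pool.Agent.V8H46.FT.Std

/-!
Two independent `n`-step self-avoiding walks on the `(3.12²)` lattice, the lattice of triangles and
dodecagons: their non-intersection probability is at least `exp (-K (log n)²)`, and the number of
walks is `ν^n exp (O((log n)²))` with `ν³ = √(2 + √2) (ν + 1)`.
-/

set_option autoImplicit false

namespace Pool.Agent.Results.MP_8c6f77_pr.FisherLogTwo

open Pool.Agent.V8H46.FT

/-- the three neighbours of the site `p` of the honeycomb lattice, drawn as a brick wall -/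
def nb (p : ℤ × ℤ) (i : Fin 3) : ℤ × ℤ :=
  if (p.1 + p.2) % 2 = 0 then ![(p.1 + 1, p.2), (p.1, p.2 + 1), (p.1 - 1, p.2)] i
  else ![(p.1 - 1, p.2), (p.1, p.2 - 1), (p.1 + 1, p.2)] i

/-- adjacency in the `(3.12²)` lattice, the honeycomb lattice with every site replaced by a
triangle: `(p, i)` is the corner of the triangle at `p` which points to the neighbour `nb p i` of
`p`. The three corners of a triangle are adjacent, and `(p, i)` is adjacent to `(nb p i, i)`; note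
that `nb (nb p i) i = p`. -/
def Adj (u v : (ℤ × ℤ) × Fin 3) : Prop :=
  (u.1 = v.1 ∧ u.2 ≠ v.2) ∨ (u.2 = v.2 ∧ v.1 = nb u.1 u.2)

/-- the `n`-step self-avoiding walks from the origin -/
def Om (n : ℕ) : Set (Fin (n + 1) → (ℤ × ℤ) × Fin 3) :=
  {f | f 0 = ((0, 0), 0) ∧ Function.Injective f ∧ ∀ i : Fin n, Adj (f i.castSucc) (f i.succ)}

/-- the number of `n`-step self-avoiding walks from the origin -/
noncomputable def b (n : ℕ) : ℕ := (Om n).ncard

/-- the probability that two independent uniform `n`-step self-avoiding walks `w`, `w'` from the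
origin satisfy `w{1,…,n} ∩ w'{0,…,n} = ∅` -/
noncomputable def P (n : ℕ) : ℝ :=
  ({x : (Fin (n + 1) → (ℤ × ℤ) × Fin 3) × (Fin (n + 1) → (ℤ × ℤ) × Fin 3) |
    x.1 ∈ Om n ∧ x.2 ∈ Om n ∧ ∀ i j : Fin (n + 1), i ≠ 0 → x.1 i ≠ x.2 j}.ncard : ℝ) /
    (b n : ℝ) ^ 2

/-- the connective constant -/
noncomputable def ν : ℝ := ⨅ n : {n : ℕ // 1 ≤ n}, ((b n.1 : ℝ) ^ ((1 : ℝ) / (n.1 : ℝ)))

theorem Om_eq (n : ℕ) : Om n = Sf nF oF n := by
  ext f
  unfold Om Sf
  simp only [Set.mem_ofPred_eq]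
  refine and_congr Iff.rfl (and_congr Iff.rfl (forall_congr' fun i => ?_))
  exact adjF_iff _ _

theorem b_eq (n : ℕ) : b n = fc n := by
  unfold b fc
  rw [Om_eq, ncard_Sf nF_inj]

theorem P_eq (n : ℕ) : P n = (fc (2 * n) : ℝ) / (fc n : ℝ) ^ 2 := by
  unfold P
  rw [b_eq, ← pairsF n, Om_eq]
  rfl

/-- **Theorem.** For independent `n`-step self-avoiding walks on the `(3.12²)` lattice
`P_n ≥ exp (-K (log n)²)` for all `n ≥ 2`, with a constant `K`. The connective constant `ν` of this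
lattice satisfies `ν³ = √(2 + √2) (ν + 1)`, and `ν^n ≤ b_n ≤ ν^n exp (K (log n)²)` for all
`n ≥ 2`. -/
theorem result : ∃ K : ℝ, 0 ≤ K ∧
    (∀ n : ℕ, 2 ≤ n → Real.exp (-(K * Real.log n ^ 2)) ≤ P n) ∧
    1 < ν ∧ ν ^ 3 = Real.sqrt (2 + Real.sqrt 2) * (ν + 1) ∧
    ∀ n : ℕ, 2 ≤ n → ν ^ n ≤ b n ∧ (b n : ℝ) ≤ ν ^ n * Real.exp (K * Real.log n ^ 2) := by
  have hν : ν = nu := by
    unfold ν
    simp only [b_eq]
    exact nu_inf
  obtain ⟨K1, hK1, h1⟩ := ratio_ge
  obtain ⟨K2, h2⟩ := growth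
  have hm1 : K1 ≤ max K1 K2 := le_max_left _ _
  have hm2 : K2 ≤ max K1 K2 := le_max_right _ _
  refine ⟨max K1 K2, hK1.trans hm1, fun n hn => ?_, by rw [hν]; exact nu_gt, ?_, fun n hn => ?_⟩
  · rw [P_eq]
    refine le_trans (Real.exp_le_exp.2 ?_) (h1 n hn)
    have := mul_le_mul_of_nonneg_right hm1 (sq_nonneg (Real.log n))
    linarith
  · rw [hν, ← mu_eq]
    exact nu_eq
  · rw [hν, b_eq]
    refine ⟨(h2 n hn).1, (h2 n hn).2.trans ?_⟩
    refine mul_le_mul_of_nonneg_left (Real.exp_le_exp.2 ?_) (pow_pos nu_pos n).le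
    exact mul_le_mul_of_nonneg_right hm2 (sq_nonneg _)

end Pool.Agent.Results.MP_8c6f77_pr.FisherLogTwo
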