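import Pool.Agent.V8H46.FT.Rat

/-!
Self-avoiding walks on the `(3.12²)` lattice of triangles and dodecagons: Kesten's inequality and the
ratio limit theorems for the number of walks and for the non-intersection probability hold with
steps of length one.
-/

set_option autoImplicit false

namespace Pool.Agent.Results.MP_8c6f77_pr.FisherRatios

open Pool.Agent.V8H46.FT

/-- the three neighbours of the site `p` of the honeycomb lattice, drawn as a brick wall -/
def nb (p : ℤ × ℤ) (i : Fin 3) : ℤ × ℤ :=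
  if (p.1 + p.2) % 2 = 0 then ![(p.1 + 1, p.2), (p.1, p.2 + 1), (p.1 - 1, p.2)] i
  else ![(p.1 - 1, p.2), (p.1, p.2 - 1), (p.1 + 1, p.2)] i

/-- adjacency in the `(3.12²)` lattice, the honeycomb lattice with every site replaced by a
triangle: `(p, i)` is the corner of the triangle at `p` which points to the neighbour `nb p i` of
`p`. The three corners of a triangle are adjacent, and `(p, i)` is adjacent to `(nb p i, i)`; note
that `nb (nb p i) i = p`. -/
def Adj (u v : (ℤ × ℤ) × Fin 3) : Prop :=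
  (u.1 = v.1 ∧ u.2 ≠ v.2) ∨ (u.2 = v.2 ∧ v.1 = nb u.1 u.2)

/-- the `n`-step self-avoiding walks from the origin -/
def Om (n : ℕ) : Set (Fin (n + 1) → (ℤ × ℤ) × Fin 3) :=
  {f | f 0 = ((0, 0), 0) ∧ Function.Injective f ∧ ∀ i : Fin n, Adj (f i.castSucc) (f i.succ)}

/-- the number of `n`-step self-avoiding walks from the origin -/
noncomputable def b (n : ℕ) : ℕ := (Om n).ncard

/-- the probability that two independent uniform `n`-step self-avoiding walks `w`, `w'` from the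
origin satisfy `w{1,…,n} ∩ w'{0,…,n} = ∅` -/
noncomputable def P (n : ℕ) : ℝ :=
  ({x : (Fin (n + 1) → (ℤ × ℤ) × Fin 3) × (Fin (n + 1) → (ℤ × ℤ) × Fin 3) |
    x.1 ∈ Om n ∧ x.2 ∈ Om n ∧ ∀ i j : Fin (n + 1), i ≠ 0 → x.1 i ≠ x.2 j}.ncard : ℝ) /
    (b n : ℝ) ^ 2

/-- the connective constant -/
noncomputable def ν : ℝ := ⨅ n : {n : ℕ // 1 ≤ n}, ((b n.1 : ℝ) ^ ((1 : ℝ) / (n.1 : ℝ)))

theorem Om_eq (n : ℕ) : Om n = Sf nF oF n := by
  ext f
  unfold Om Sf
  simp only [Set.mem_ofPred_eq]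
  refine and_congr Iff.rfl (and_congr Iff.rfl (forall_congr' fun i => ?_))
  exact adjF_iff _ _

theorem b_eq (n : ℕ) : b n = fc n := by
  unfold b fc
  rw [Om_eq, ncard_Sf nF_inj]

theorem P_eq (n : ℕ) : P n = Fn (2 * n) / Fn n ^ 2 := by
  rw [← ratio_eq]
  unfold P
  rw [b_eq, ← pairsF n, Om_eq]
  rfl

/-- **Theorem.** For the number `b_n` of `n`-step self-avoiding walks from the origin of the
`(3.12²)` lattice, its connective constant `ν` and the probability `P_n` that two independent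
`n`-step walks from the origin meet only there, there is a constant `K` with
`b_{n+1} b_{n-1} ≥ (1 - K/n) b_n²` for `n ≥ 1`, and
`|b_{n+1}/b_n - ν| ≤ K log n / √n` and `|P_{n+1}/P_n - 1| ≤ K log n / √n` for `n ≥ 2`. -/
theorem result : ∃ K : ℝ,
    (∀ n : ℕ, 1 ≤ n → (1 - K / n) * (b n : ℝ) ^ 2 ≤ b (n + 1) * b (n - 1)) ∧
    (∀ n : ℕ, 2 ≤ n → |(b (n + 1) : ℝ) / b n - ν| ≤ K * (Real.log n / √n)) ∧
    (∀ n : ℕ, 2 ≤ n → |P (n + 1) / P n - 1| ≤ K * (Real.log n / √n)) := by
  have hν : ν = nu := by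
    unfold ν
    simp only [b_eq]
    exact nu_inf
  obtain ⟨K1, hK1, h1⟩ := kesten_counts
  obtain ⟨K2, hK2, h2⟩ := ratio_counts
  obtain ⟨K3, hK3, h3⟩ := ratio_prob
  obtain ⟨K, hK⟩ : ∃ K, K = K1 + K2 + K3 := ⟨_, rfl⟩
  refine ⟨K, fun n hn => ?_, fun n hn => ?_, fun n hn => ?_⟩
  · rw [b_eq, b_eq, b_eq]
    refine le_trans (mul_le_mul_of_nonneg_right ?_ (sq_nonneg _)) (h1 n hn)
    have : K1 / n ≤ K / n := div_le_div_of_nonneg_right (by linarith) (Nat.cast_nonneg n)
    linarith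
  · rw [b_eq, b_eq, hν]
    exact (h2 n hn).trans (mul_le_mul_of_nonneg_right (by linarith)
      (Pool.Agent.TH262.UL.g_nonneg n))
  · rw [P_eq, P_eq]
    exact (h3 n hn).trans (mul_le_mul_of_nonneg_right (by linarith)
      (Pool.Agent.TH262.UL.g_nonneg n))

end Pool.Agent.Results.MP_8c6f77_pr.FisherRatios
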