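import Pool.Agent.V8H46.FT.Dis

/-!
Two self-avoiding walks on the `(3.12²)` lattice of triangles and dodecagons and on the honeycomb
lattice: the probability that they do not meet is at most a negative power of the length, for a
length in every interval `[n, C n log n]`.
-/

set_option autoImplicit false

namespace Pool.Agent.Results.MP_8c6f77_pr.FisherUpper

open Pool.Agent.V8H46.FT Filter Topology

/-- the three neighbours of the site `p` of the honeycomb lattice, drawn as a brick wall -/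
def nb (p : ℤ × ℤ) (i : Fin 3) : ℤ × ℤ :=
  if (p.1 + p.2) % 2 = 0 then ![(p.1 + 1, p.2), (p.1, p.2 + 1), (p.1 - 1, p.2)] i
  else ![(p.1 - 1, p.2), (p.1, p.2 - 1), (p.1 + 1, p.2)] i

/-- adjacency in the honeycomb lattice -/
def AdjH (p q : ℤ × ℤ) : Prop := ∃ i : Fin 3, q = nb p i

/-- adjacency in the `(3.12²)` lattice, the honeycomb lattice with every site replaced by a
triangle: `(p, i)` is the corner of the triangle at `p` which points to the neighbour `nb p i` of
`p`. The three corners of a triangle are adjacent, and `(p, i)` is adjacent to `(nb p i, i)`; note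
that `nb (nb p i) i = p`. -/
def AdjT (u v : (ℤ × ℤ) × Fin 3) : Prop :=
  (u.1 = v.1 ∧ u.2 ≠ v.2) ∨ (u.2 = v.2 ∧ v.1 = nb u.1 u.2)

/-- the `n`-step self-avoiding walks from `o` in the graph with adjacency `A` -/
def Om {V : Type} (A : V → V → Prop) (o : V) (n : ℕ) : Set (Fin (n + 1) → V) :=
  {f | f 0 = o ∧ Function.Injective f ∧ ∀ i : Fin n, A (f i.castSucc) (f i.succ)}

/-- the number of `n`-step self-avoiding walks from `o` -/
noncomputable def cnt {V : Type} (A : V → V → Prop) (o : V) (n : ℕ) : ℕ := (Om A o n).ncard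

/-- the probability that two independent uniform `n`-step self-avoiding walks `w`, `w'` from `o`
satisfy `w{1,…,n} ∩ w'{0,…,n} = ∅` -/
noncomputable def P {V : Type} (A : V → V → Prop) (o : V) (n : ℕ) : ℝ :=
  ({x : (Fin (n + 1) → V) × (Fin (n + 1) → V) |
    x.1 ∈ Om A o n ∧ x.2 ∈ Om A o n ∧ ∀ i j : Fin (n + 1), i ≠ 0 → x.1 i ≠ x.2 j}.ncard : ℝ) /
    (cnt A o n : ℝ) ^ 2

/-- the connective constant -/
noncomputable def conn {V : Type} (A : V → V → Prop) (o : V) : ℝ :=
  ⨅ n : {n : ℕ // 1 ≤ n}, ((cnt A o n.1 : ℝ) ^ ((1 : ℝ) / (n.1 : ℝ)))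

theorem OmT (n : ℕ) : Om AdjT ((0, 0), 0) n = Sf nF oF n := by
  ext f
  unfold Om Sf
  simp only [Set.mem_ofPred_eq]
  refine and_congr Iff.rfl (and_congr Iff.rfl (forall_congr' fun i => ?_))
  exact adjF_iff _ _

theorem OmH (n : ℕ) : Om AdjH (0, 0) n = Sf nH 0 n := rfl

theorem cntT (n : ℕ) : cnt AdjT ((0, 0), 0) n = fc n := by
  unfold cnt fc
  rw [OmT, ncard_Sf nF_inj]

theorem cntH (n : ℕ) : cnt AdjH (0, 0) n = hc n := by
  unfold cnt hc
  rw [OmH, ncard_Sf nH_inj]

theorem PT (n : ℕ) : P AdjT ((0, 0), 0) n = Fn (2 * n) / Fn n ^ 2 := by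
  rw [← ratio_eq]
  unfold P
  rw [cntT, ← pairsF n, OmT]
  rfl

theorem PH (n : ℕ) : P AdjH (0, 0) n = An (2 * n) / An n ^ 2 := by
  rw [← ratioH_eq]
  unfold P
  rw [cntH, ← pairsH n, OmH]
  rfl

/-- **Theorem.** Let `P_n` be the probability that two independent `n`-step self-avoiding walks from
the origin meet only there.
(i) On the `(3.12²)` lattice and on the honeycomb lattice: for every `δ < 1/75` there is `C` such
that for every large `n` there is `j` with `2^j ≤ C log n` and `P_m ≤ m^(-δ)` for `m = 2^j n`; so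
there is such an `m` in the interval `[n, C n log n]`.
(ii) On the `(3.12²)` lattice, with `b_n` the number of `n`-step walks and `ν` the connective
constant: `b_n ≥ c ν^n n^(1/75)` for all `n`, with a constant `c > 0`.
(iii) On the `(3.12²)` lattice: if `P_n = n^(α + o(1))`, then `α ≤ -1/75`. -/
theorem result :
    (∀ δ : ℝ, δ < 1 / 75 →
      (∃ C : ℝ, 0 < C ∧ ∀ᶠ n : ℕ in atTop, ∃ j : ℕ, (2 : ℝ) ^ j ≤ C * Real.log n ∧
        P AdjT ((0, 0), 0) (2 ^ j * n) ≤ ((2 ^ j * n : ℕ) : ℝ) ^ (-δ)) ∧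
      (∃ C : ℝ, 0 < C ∧ ∀ᶠ n : ℕ in atTop, ∃ j : ℕ, (2 : ℝ) ^ j ≤ C * Real.log n ∧
        P AdjH (0, 0) (2 ^ j * n) ≤ ((2 ^ j * n : ℕ) : ℝ) ^ (-δ))) ∧
    (∃ c : ℝ, 0 < c ∧ ∀ n : ℕ, c * (conn AdjT ((0, 0), 0) ^ n * (n : ℝ) ^ ((1 : ℝ) / 75)) ≤
      cnt AdjT ((0, 0), 0) n) ∧
    ∀ α : ℝ, Tendsto (fun n : ℕ => Real.log (P AdjT ((0, 0), 0) n) / Real.log n) atTop (𝓝 α) →
      α ≤ -(1 / 75) := by
  have hν : conn AdjT ((0, 0), 0) = nu := by
    unfold conn
    simp only [cntT]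
    exact nu_inf
  obtain ⟨c, hc, hlow⟩ := Fn_lower
  obtain ⟨K, hK, hF⟩ := Fn_le
  obtain ⟨K', hK', hA⟩ := An_le
  simp only [PT, PH, hν, cntT]
  refine ⟨fun δ hδ => ⟨?_, ?_⟩, ⟨c, hc, fun n => ?_⟩, fun α hα => ?_⟩
  · exact small_prob Fn_one hK hF hc hlow (by norm_num) hδ
  · exact small_prob An_one hK' hA (by norm_num) An_lower (by norm_num) hδ
  · have h1 := hlow n
    unfold Fn at h1
    rw [le_div_iff₀ (pow_pos nu_pos n)] at h1
    linarith
  · have h1 : Ex Fn (-α) := by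
      rw [← ex_ratio, ex_iff, neg_neg]
      exact hα
    have h2 := (ex_iff Fn (-α)).1 h1
    have h3 : Tendsto (fun n : ℕ => 1 / 75 - (-Real.log c) / Real.log n) atTop
        (𝓝 (1 / 75 - 0)) := (tendsto_const_nhds.div_atTop log_tend).const_sub _
    rw [sub_zero] at h3
    have h4 := le_of_tendsto_of_tendsto h3 h2 (by
      filter_upwards [log_tend.eventually_gt_atTop 0, eventually_ge_atTop 1] with n hn hn1
      have h5 := log_lower hc hlow n hn1
      rw [le_div_iff₀ hn, sub_mul, div_mul_cancel₀ _ hn.ne']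
      exact h5)
    linarith

end Pool.Agent.Results.MP_8c6f77_pr.FisherUpper
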